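import Pool.Agent.H.MP_c6a450_an.B

set_option autoImplicit false

namespace Pool.Agent.Results.MP_c6a450_an.No

def Ngon (P : Fin 3 → ℂ) : Prop := ∀ i, P i ≠ P (i + 1)

noncomputable def q (t : ℝ) (P : Fin 3 → ℂ) : Fin 3 → ℂ :=
  fun i => P i + t • (‖P i - P (i - 1)‖⁻¹ • (P i - P (i - 1)))

noncomputable def r (t : ℝ) (P : Fin 3 → ℂ) : Fin 3 → ℂ :=
  fun i => P i + t • (‖P i - P (i + 1)‖⁻¹ • (P i - P (i + 1)))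

theorem result : ¬ ∃ (U : Set (Fin 3 → ℂ)) (C : (Fin 3 → ℂ) → ℂ), IsOpen U ∧ (∀ P ∈ U, Ngon P) ∧
    (∀ P, Ngon P → P ∈ closure U) ∧ ContDiffOn ℝ 2 C U ∧
    (∀ P ∈ U, ∀ v : ℂ, P + (fun _ => v) ∈ U → C (P + fun _ => v) = C P + v) ∧
    ∀ t > 0, ∀ P, Ngon P → r t P ∈ U → q t P ∈ U → (∀ i, 2 * t < ‖r t P (i + 1) - r t P i‖) →
      C (q t P) = C (r t P) :=
  Pool.Agent.H.MP_c6a450_an.main

end Pool.Agent.Results.MP_c6a450_an.No
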